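import Pool.Agent.W5h41.GT9

set_option autoImplicit false

/-!
# MP_ce3dc4_an: the symmetric ground-state threshold for `k = 1` is positive

For every `N ≥ 4` and every bounded open `Θ ⊆ ℝ × ℝ^{N-2}` with closure in `(0, ∞) × ℝ^{N-2}` (smooth
or not, connected or not), the threshold `λ_{0,*}^{[1]}` is positive. Explicitly, if `α` and `β` are
the infimum and the supremum of `|y|` on `Ω`, then `λ_{0,*}^{[1]} ≥ 1 / (β² - α²)`. This answers Q1:
the statement is true.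

The proof. Let `n = N - 1`, so that `p = 2 n / (n - 2)` is the critical exponent in dimension `n`.
For `v ∈ H`, `v(y, z) = w(s, z)` with `s = |y|² / (2 α)`,

`∫_Ω |∇v|² = 2 π α ∫ ((2 s / α) w_s² + |∇_z w|²) ds dz`, `∫_Ω |v|^p = 2 π α ∫ |w|^p ds dz`.

Since `2 s / α = 1 + (2 / α) (s - α / 2)` and `s ≥ α / 2` on `Ω`, the energy is the Euclidean energy of
`w` in `ℝ^n` plus a positive term. The first part is at least `S ‖w‖_p²` with the Sobolev constant `S` of
`ℝ^n`. The second one is at least `1 / (β² - α²)` times `∫ w²`, by the one-dimensional inequality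
`∫ w² ≤ 4 (s_1 - s_0) ∫ (s - s_0) w_s²` for functions with support in `[s_0, s_1]`. So

`∫_Ω |∇v|² ≥ S (2 π α)^{2/n} (∫_Ω |v|^p)^{2/p} + (1 / (β² - α²)) ∫_Ω v²`, `v ∈ H`,

and `S (2 π α)^{2/n}` is the infimum of `∫ |∇v|² / ‖v‖_p²` on `H`, by concentration at points of `Ω`
with `|y|` close to `α`. Hence for `0 ≤ λ < 1 / (β² - α²)` the level `ℓ_λ` is
`(1/n) (S (2 π α)^{2/n})^{n/2}`, and every nonzero critical point in `H` has a larger energy.

Files: GT1 (the abstract part: Palais-Smale sequences and levels), GT2 (Sobolev constant, weighted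
inequality), GT3 - GT5 (polar coordinates and the inequality for `H`; no averaging of test functions
is used, the inequality is proved on almost every slice `θ = const`), GT6 - GT9 (the space `H`,
concentrated functions).
-/

namespace Pool.Agent.Results.MP_ce3dc4_an.PositiveThreshold

open MeasureTheory Set Filter Topology
open scoped ContDiff

/-- The space `ℝ² × ℝ^{N-2}` of the points `(y, z)`. -/
abbrev Amb (N : ℕ) := EuclideanSpace ℝ (Fin 2) × EuclideanSpace ℝ (Fin (N - 2))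

/-- The space `ℝ × ℝ^{N-2} = ℝ^{N-1}` which contains `Θ`. -/
abbrev Base (N : ℕ) := ℝ × EuclideanSpace ℝ (Fin (N - 2))

variable {N : ℕ}

/-- `Ω = {(y, z) : (|y|, z) ∈ Θ}`. -/
def Om (Θ : Set (Base N)) : Set (Amb N) := {x | (‖x.1‖, x.2) ∈ Θ}

/-- The gradient of a differentiable function, `∇φ = (∇_y φ, ∇_z φ)`. -/
noncomputable def grad (φ : Amb N → ℝ) (x : Amb N) : Amb N :=
  (gradient (fun y => φ (y, x.2)) x.1, gradient (fun z => φ (x.1, z)) x.2)

/-- The Euclidean scalar product of `ℝ² × ℝ^{N-2}`. -/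
noncomputable def dot (v w : Amb N) : ℝ := inner ℝ v.1 w.1 + inner ℝ v.2 w.2

/-- `φ ∈ C_c^∞(Ω)`. -/
def IsTest (Ω : Set (Amb N)) (φ : Amb N → ℝ) : Prop :=
  ContDiff ℝ ∞ φ ∧ HasCompactSupport φ ∧ tsupport φ ⊆ Ω

/-- `v ∈ H₀¹(Ω)`, and `G` is the weak gradient of `v`: both are square integrable on `Ω` and there are
`φ_k ∈ C_c^∞(Ω)` such that `φ_k → v` and `∇φ_k → G` in `L²(Ω)`. -/
def IsH01 (Ω : Set (Amb N)) (v : Amb N → ℝ) (G : Amb N → Amb N) : Prop :=
  MemLp v 2 (volume.restrict Ω) ∧ MemLp G 2 (volume.restrict Ω) ∧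
  ∃ φ : ℕ → Amb N → ℝ, (∀ k, IsTest Ω (φ k)) ∧
    Tendsto (fun k => eLpNorm (φ k - v) 2 (volume.restrict Ω)) atTop (𝓝 0) ∧
    Tendsto (fun k => eLpNorm (grad (φ k) - G) 2 (volume.restrict Ω)) atTop (𝓝 0)

/-- `v ∈ H = H₀¹(Ω)^{O(2)}`, with weak gradient `G`. -/
def IsH (Θ : Set (Base N)) (v : Amb N → ℝ) (G : Amb N → Amb N) : Prop :=
  IsH01 (Om Θ) v G ∧
    ∀ (g : EuclideanSpace ℝ (Fin 2) ≃ₗᵢ[ℝ] EuclideanSpace ℝ (Fin 2)) (y : EuclideanSpace ℝ (Fin 2))
      (z : EuclideanSpace ℝ (Fin (N - 2))), v (g y, z) = v (y, z)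

/-- The exponent `p = 2 (N - 1) / (N - 3)`. -/
noncomputable def expo (N : ℕ) : ℝ := 2 * ((N : ℝ) - 1) / ((N : ℝ) - 3)

/-- The functional `J_λ(v)`, for `v ∈ H` with weak gradient `G`. -/
noncomputable def J (Θ : Set (Base N)) (lam : ℝ) (v : Amb N → ℝ) (G : Amb N → Amb N) : ℝ :=
  1 / 2 * (∫ x in Om Θ, dot (G x) (G x)) - lam / 2 * (∫ x in Om Θ, v x ^ 2) -
    1 / expo N * (∫ x in Om Θ, |v x| ^ expo N)

/-- The derivative `J_λ'(v)` in the direction of `h`; `G` and `K` are the weak gradients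
of `v` and `h`. -/
noncomputable def dJ (Θ : Set (Base N)) (lam : ℝ) (v : Amb N → ℝ) (G : Amb N → Amb N)
    (h : Amb N → ℝ) (K : Amb N → Amb N) : ℝ :=
  (∫ x in Om Θ, dot (G x) (K x)) - lam * (∫ x in Om Θ, v x * h x) -
    (∫ x in Om Θ, |v x| ^ (expo N - 2) * v x * h x)

/-- `(v_j)` is a `(PS)_τ`-sequence: `v_j ∈ H`, `J_λ(v_j) → τ` and `J_λ'(v_j) → 0` in the dual norm
(the norm of `h` being `‖∇h‖_2`). -/
def IsPS (Θ : Set (Base N)) (lam τ : ℝ) (v : ℕ → Amb N → ℝ) (G : ℕ → Amb N → Amb N) : Prop :=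
  (∀ j, IsH Θ (v j) (G j)) ∧ Tendsto (fun j => J Θ lam (v j) (G j)) atTop (𝓝 τ) ∧
  ∃ ε : ℕ → ℝ, Tendsto ε atTop (𝓝 0) ∧ ∀ j h K, IsH Θ h K →
    |dJ Θ lam (v j) (G j) h K| ≤ ε j * Real.sqrt (∫ x in Om Θ, dot (K x) (K x))

/-- `ℓ_λ`, the infimum of all `τ > 0` for which there is a `(PS)_τ`-sequence. -/
noncomputable def ell (Θ : Set (Base N)) (lam : ℝ) : ℝ :=
  sInf {τ : ℝ | 0 < τ ∧ ∃ v G, IsPS Θ lam τ v G}

/-- There is a ground state for `λ`: a critical point `v ∈ H` of `J_λ` with `J_λ(v) = ℓ_λ`. -/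
def HasGroundState (Θ : Set (Base N)) (lam : ℝ) : Prop :=
  ∃ v G, IsH Θ v G ∧ (∀ h K, IsH Θ h K → dJ Θ lam v G h K = 0) ∧ J Θ lam v G = ell Θ lam

/-- `λ_1^{[1]}`, the least Dirichlet eigenvalue of `-Δ` on `H` (the infimum of the Rayleigh
quotient). -/
noncomputable def lam1 (Θ : Set (Base N)) : ℝ :=
  sInf {r : ℝ | ∃ v G, IsH Θ v G ∧ 0 < (∫ x in Om Θ, v x ^ 2) ∧
    r = (∫ x in Om Θ, dot (G x) (G x)) / (∫ x in Om Θ, v x ^ 2)}

/-- `λ_{0,*}^{[1]}`, the infimum of all `λ ∈ [0, λ_1^{[1]})` for which there is a ground state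
(in the extended reals). -/
noncomputable def lamStar (Θ : Set (Base N)) : EReal :=
  sInf {x : EReal | ∃ lam : ℝ, 0 ≤ lam ∧ lam < lam1 Θ ∧ HasGroundState Θ lam ∧ x = (lam : EReal)}

/-- The infimum `α` of `|y|` on `Ω`. -/
noncomputable def inner_radius (Θ : Set (Base N)) : ℝ := sInf (Prod.fst '' Θ)

/-- The supremum `β` of `|y|` on `Ω`. -/
noncomputable def outer_radius (Θ : Set (Base N)) : ℝ := sSup (Prod.fst '' Θ)

theorem dom {Θ : Set (Base N)} (hop : IsOpen Θ) (hne : Θ.Nonempty) (hbd : Bornology.IsBounded Θ)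
    (hcl : ∀ x ∈ closure Θ, 0 < x.1) :
    Pool.Agent.W5h41.GT.Dom (m := N - 2) Θ (inner_radius Θ) (outer_radius Θ) := by
  obtain ⟨R, hR⟩ := hbd.subset_closedBall (0 : Base N)
  have hb1 : BddBelow (Prod.fst '' Θ) := by
    refine ⟨-R, ?_⟩
    rintro _ ⟨x, hx, rfl⟩
    have h1 := hR hx
    rw [mem_closedBall_zero_iff] at h1
    have h2 := (norm_fst_le x).trans h1
    rw [Real.norm_eq_abs] at h2
    exact (abs_le.1 h2).1
  have hb2 : BddAbove (Prod.fst '' Θ) := by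
    refine ⟨R, ?_⟩
    rintro _ ⟨x, hx, rfl⟩
    have h1 := hR hx
    rw [mem_closedBall_zero_iff] at h1
    have h2 := (norm_fst_le x).trans h1
    rw [Real.norm_eq_abs] at h2
    exact (abs_le.1 h2).2
  have hsub : ∀ x ∈ Θ, inner_radius Θ < x.1 ∧ x.1 < outer_radius Θ := by
    intro x hx
    obtain ⟨δ, hδ, hball⟩ := Metric.isOpen_iff.1 hop x hx
    have hdist : ∀ t : ℝ, |t| < δ → ((x.1 + t, x.2) : Base N) ∈ Θ := by
      intro t ht
      apply hball
      rw [Metric.mem_ball, Prod.dist_eq, dist_self, Real.dist_eq]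
      simp only [add_sub_cancel_left]
      exact max_lt ht hδ
    constructor
    · have h1 := hdist (-(δ / 2)) (by rw [abs_neg, abs_of_pos (by positivity)]; linarith)
      have h2 : inner_radius Θ ≤ x.1 + -(δ / 2) := csInf_le hb1 ⟨_, h1, rfl⟩
      linarith
    · have h1 := hdist (δ / 2) (by rw [abs_of_pos (by positivity)]; linarith)
      have h2 : x.1 + δ / 2 ≤ outer_radius Θ := le_csSup hb2 ⟨_, h1, rfl⟩
      linarith
  refine ⟨hop, ?_, ?_, hsub, ?_⟩
  · have hcomp : IsCompact (closure Θ) := hbd.isCompact_closure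
    obtain ⟨x0, hx0, hmin⟩ := hcomp.exists_isMinOn hne.closure
      (f := fun x : Base N => x.1) continuous_fst.continuousOn
    have h1 := hcl x0 hx0
    have h2 : x0.1 ≤ inner_radius Θ := by
      apply le_csInf (hne.image _)
      rintro _ ⟨x, hx, rfl⟩
      exact hmin (subset_closure hx)
    linarith
  · obtain ⟨x, hx⟩ := hne
    exact (hsub x hx).1.trans (hsub x hx).2
  · intro η hη
    obtain ⟨_, ⟨x, hx, rfl⟩, h1⟩ := exists_lt_of_csInf_lt (hne.image Prod.fst)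
      (show sInf (Prod.fst '' Θ) < inner_radius Θ + η by unfold inner_radius; linarith)
    exact ⟨x, hx, h1⟩

/-- **Result.** For every `N ≥ 4` and every bounded nonempty open `Θ` with closure in
`(0, ∞) × ℝ^{N-2}` the threshold `λ_{0,*}^{[1]}` is positive, and it is at least `1 / (β² - α²)`, where
`α` and `β` are the infimum and the supremum of `|y|` on `Ω`. -/
theorem result (N : ℕ) (hN : 4 ≤ N) (Θ : Set (Base N)) (hop : IsOpen Θ) (hne : Θ.Nonempty)
    (hbd : Bornology.IsBounded Θ) (hcl : ∀ x ∈ closure Θ, 0 < x.1) :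
    0 < lamStar Θ ∧
      ((1 / (outer_radius Θ ^ 2 - inner_radius Θ ^ 2) : ℝ) : EReal) ≤ lamStar Θ := by
  have hd := dom hop hne hbd hcl
  obtain ⟨a, ha⟩ : ∃ a, a = inner_radius Θ := ⟨_, rfl⟩
  obtain ⟨b, hb⟩ : ∃ b, b = outer_radius Θ := ⟨_, rfl⟩
  rw [← ha, ← hb] at hd ⊢
  have hN' : (4 : ℝ) ≤ (N : ℝ) := by exact_mod_cast hN
  have hcast : (((N - 2 : ℕ) : ℕ) : ℝ) = (N : ℝ) - 2 := by
    rw [Nat.cast_sub (by omega)]
    norm_num
  have hp2 : 2 < expo N := by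
    unfold expo
    rw [lt_div_iff₀ (by linarith)]
    linarith
  have hp : (expo N)⁻¹ = 1 / 2 - 1 / (((N - 2 : ℕ) : ℝ) + 1) := by
    unfold expo
    rw [hcast]
    have h1 : (N : ℝ) - 1 ≠ 0 := by linarith
    have h2 : (N : ℝ) - 3 ≠ 0 := by linarith
    have h3 : (N : ℝ) - 2 + 1 = (N : ℝ) - 1 := by ring
    rw [h3, inv_div]
    field_simp
    ring
  have hab2 : 0 < b ^ 2 - a ^ 2 := by
    have h1 := hd.ha
    have h2 := hd.hab
    nlinarith
  obtain ⟨lam0, hlam0⟩ : ∃ lam0, lam0 = 1 / (b ^ 2 - a ^ 2) := ⟨_, rfl⟩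
  have hlam00 : 0 < lam0 := by rw [hlam0]; positivity
  let S := Pool.Agent.W5h41.GT.frame hp2 hp hd
  have hL : 0 < Pool.Agent.W5h41.GT.Lc (N - 2) (expo N) a :=
    Pool.Agent.W5h41.GT.Lc_pos (by linarith) hp hd.ha
  -- translation
  have hJ : ∀ (lam : ℝ) (v : Amb N → ℝ) (G : Amb N → Amb N) (h : IsH Θ v G),
      J Θ lam v G = S.J lam ⟨(v, G), h⟩ := by
    intro lam v G h
    unfold J
    simp only [sq]
    rfl
  have hdJ : ∀ (lam : ℝ) (v : Amb N → ℝ) (G : Amb N → Amb N) (h : IsH Θ v G) (w : Amb N → ℝ)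
      (K : Amb N → Amb N) (h' : IsH Θ w K),
      dJ Θ lam v G w K = S.dJ lam ⟨(v, G), h⟩ ⟨(w, K), h'⟩ := by
    intro lam v G h w K h'
    rfl
  have hPS : ∀ lam τ : ℝ, (∃ v G, IsPS Θ lam τ v G) ↔
      ∃ v : ℕ → Pool.Agent.W5h41.GT.Hsp (m := N - 2) Θ, S.PS lam τ v := by
    intro lam τ
    constructor
    · rintro ⟨v, G, h1, h2, ε, h3, h4⟩
      refine ⟨fun j => ⟨(v j, G j), h1 j⟩, ?_, ε, h3, ?_⟩
      · have e : (fun j => S.J lam ⟨(v j, G j), h1 j⟩) = fun j => J Θ lam (v j) (G j) := by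
          funext j
          rw [hJ]
        rw [e]
        exact h2
      · intro j h
        have := h4 j h.1.1 h.1.2 h.2
        rw [hdJ lam (v j) (G j) (h1 j) h.1.1 h.1.2 h.2] at this
        exact this
    · rintro ⟨v, h2, ε, h3, h4⟩
      refine ⟨fun j => (v j).1.1, fun j => (v j).1.2, fun j => (v j).2, ?_, ε, h3, ?_⟩
      · have e : (fun j => J Θ lam (v j).1.1 (v j).1.2) = fun j => S.J lam (v j) := by
          funext j
          rw [hJ lam _ _ (v j).2]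
        rw [e]
        exact h2
      · intro j h K hh
        have := h4 j ⟨(h, K), hh⟩
        rw [hdJ lam _ _ (v j).2 h K hh]
        exact this
  have key : ∀ lam : ℝ, 0 ≤ lam → HasGroundState Θ lam → lam0 ≤ lam := by
    intro lam h0 hgs
    by_contra hcon
    push Not at hcon
    obtain ⟨v, G, hv, hcrit, hlev⟩ := hgs
    have hell : ell Θ lam = Pool.Agent.W5h41.GT.Frame.lev (expo N)
        (Pool.Agent.W5h41.GT.Lc (N - 2) (expo N) a) := by
      unfold ell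
      simp only [hPS]
      rw [hlam0] at hcon hlam00
      exact S.inf_eq hp2 hL hlam00 h0 hcon
    rw [hell, hJ lam v G hv] at hlev
    rw [hlam0] at hcon
    refine S.no_gs hp2 hL hcon ⟨(v, G), hv⟩ ?_ hlev
    intro h
    have := hcrit h.1.1 h.1.2 h.2
    rw [hdJ lam v G hv h.1.1 h.1.2 h.2] at this
    exact this
  have hfin : ((lam0 : ℝ) : EReal) ≤ lamStar Θ := by
    apply le_sInf
    rintro x ⟨lam, h0, -, hgs, rfl⟩
    exact EReal.coe_le_coe_iff.2 (key lam h0 hgs)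
  rw [← hlam0]
  refine ⟨lt_of_lt_of_le ?_ hfin, hfin⟩
  exact_mod_cast hlam00

end Pool.Agent.Results.MP_ce3dc4_an.PositiveThreshold
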